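import Mathlib

set_option autoImplicit false

namespace Pool.Agent.Results.MP_26bcd4_gt.OuterUnbounded

open Metric Set Filter Topology

/-- `U` is an outer illuminating set of `K`. -/
def Ill {d : ℕ} (K U : Set (EuclideanSpace ℝ (Fin d))) : Prop :=
  (∀ u ∈ U, ‖u‖ = 1) ∧
    ∀ x ∈ frontier K, ∃ u ∈ U, ∃ ε : ℝ, 0 < ε ∧ ε < 1 ∧ x + ε • u ∈ interior K

/-- `U` is a primitive outer illuminating set of `K`. -/
def Prim {d : ℕ} (K U : Set (EuclideanSpace ℝ (Fin d))) : Prop :=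
  Ill K U ∧ ∀ V, V ⊆ U → V ≠ U → ¬ Ill K V

/-- A spherical cap. -/
def cap {d : ℕ} (i : Fin d) : Set (EuclideanSpace ℝ (Fin d)) :=
  closedBall 0 1 ∩ {x | 3 / 5 ≤ x i}

theorem int_cap {d : ℕ} (i : Fin d) (x : EuclideanSpace ℝ (Fin d)) :
    x ∈ interior (cap i) ↔ ‖x‖ < 1 ∧ 3 / 5 < x i := by
  have ho : IsOpenMap (EuclideanSpace.proj (𝕜 := ℝ) i) :=
    ContinuousLinearMap.isOpenMap _ fun r => ⟨EuclideanSpace.single i r, by simp⟩
  have h := ho.preimage_interior_eq_interior_preimage (EuclideanSpace.proj (𝕜 := ℝ) i).continuous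
    (Ici (3 / 5))
  have e : {x : EuclideanSpace ℝ (Fin d) | 3 / 5 ≤ x i} =
      EuclideanSpace.proj (𝕜 := ℝ) i ⁻¹' Ici (3 / 5) := rfl
  rw [cap, interior_inter, interior_closedBall _ one_ne_zero, e, ← h, interior_Ici]
  simp

theorem cap_closed {d : ℕ} (i : Fin d) : IsClosed {x : EuclideanSpace ℝ (Fin d) | 3 / 5 ≤ x i} :=
  isClosed_le continuous_const (by fun_prop)

theorem lit {d : ℕ} (i : Fin d) (x u : EuclideanSpace ℝ (Fin d)) (hx : x ∈ cap i)
    (h1 : ‖x‖ = 1 → inner ℝ x u < 0) (h2 : x i = 3 / 5 → 0 < u i) :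
    ∃ ε : ℝ, 0 < ε ∧ ε < 1 ∧ x + ε • u ∈ interior (cap i) := by
  have hx1 : ‖x‖ ≤ 1 := mem_closedBall_zero_iff.1 hx.1
  have hx2 : 3 / 5 ≤ x i := hx.2
  have e0 : ∀ᶠ ε : ℝ in 𝓝[>] 0, 0 < ε := self_mem_nhdsWithin
  have e1 : ∀ᶠ ε : ℝ in 𝓝[>] 0, ε < 1 := nhdsWithin_le_nhds (gt_mem_nhds one_pos)
  have e2 : ∀ᶠ ε : ℝ in 𝓝[>] 0, ‖x + ε • u‖ < 1 := by
    rcases hx1.lt_or_eq with h | h
    · refine nhdsWithin_le_nhds (ContinuousAt.eventually_lt (f := fun ε : ℝ => ‖x + ε • u‖)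
        (Continuous.continuousAt (by fun_prop)) continuousAt_const (by simpa using h))
    · have : ∀ᶠ ε : ℝ in 𝓝 0, 2 * inner ℝ x u + ε * ‖u‖ ^ 2 < 0 :=
        ContinuousAt.eventually_lt (f := fun ε : ℝ => 2 * inner ℝ x u + ε * ‖u‖ ^ 2)
          (Continuous.continuousAt (by fun_prop)) continuousAt_const
          (by have := h1 h; simp only [zero_mul, add_zero]; linarith)
      filter_upwards [nhdsWithin_le_nhds this, e0] with ε hε hpos
      have e := norm_add_sq_real x (ε • u)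
      rw [h, inner_smul_right, norm_smul, Real.norm_of_nonneg hpos.le] at e
      have : ‖x + ε • u‖ ^ 2 < 1 := by nlinarith
      nlinarith [norm_nonneg (x + ε • u)]
  have e3 : ∀ᶠ ε : ℝ in 𝓝[>] 0, 3 / 5 < x i + ε * u i := by
    rcases hx2.lt_or_eq with h | h
    · exact nhdsWithin_le_nhds (ContinuousAt.eventually_lt (g := fun ε : ℝ => x i + ε * u i)
        continuousAt_const (Continuous.continuousAt (by fun_prop)) (by simpa using h))
    · filter_upwards [e0] with ε hε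
      have := mul_pos hε (h2 h.symm)
      linarith
  obtain ⟨ε, a, b, c, e⟩ := (e0.and (e1.and (e2.and e3))).exists
  exact ⟨ε, a, b, (int_cap i _).2 ⟨c, by simpa using e⟩⟩

theorem unlit {d : ℕ} (i : Fin d) (x u : EuclideanSpace ℝ (Fin d)) (h1 : ‖x‖ = 1)
    (h2 : x i = 3 / 5) {ε : ℝ} (hε : 0 < ε) (h : x + ε • u ∈ interior (cap i)) :
    inner ℝ x u < 0 ∧ 0 < u i := by
  obtain ⟨a, b⟩ := (int_cap i _).1 h
  constructor
  · have e := norm_add_sq_real x (ε • u)
    rw [h1, inner_smul_right] at e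
    have : ‖x + ε • u‖ ^ 2 < 1 := by nlinarith [norm_nonneg (x + ε • u)]
    by_contra hc
    have := mul_nonneg hε.le (not_lt.1 hc)
    nlinarith [sq_nonneg ‖ε • u‖]
  · simp only [PiLp.add_apply, PiLp.smul_apply, smul_eq_mul, h2] at b
    exact (mul_pos_iff_of_pos_left hε).1 (by linarith)

theorem result (d : ℕ) (hd : 3 ≤ d) :
    ∃ K : Set (EuclideanSpace ℝ (Fin d)), IsCompact K ∧ Convex ℝ K ∧ (interior K).Nonempty ∧
      ∀ N : ℕ, ∃ U, Prim K U ∧ (N : ℕ∞) ≤ U.encard := by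
  let i : Fin d := ⟨0, by omega⟩
  let j : Fin d := ⟨1, by omega⟩
  let l : Fin d := ⟨2, by omega⟩
  have hij : i ≠ j := by simp [i, j]
  have hil : i ≠ l := by simp [i, l]
  have hjl : j ≠ l := by simp [j, l]
  have hK : IsCompact (cap i) := (isCompact_closedBall _ _).inter_right (cap_closed i)
  refine ⟨cap i, hK, (convex_closedBall _ _).inter
    (convex_halfSpace_ge (EuclideanSpace.proj (𝕜 := ℝ) i).isLinear _),
    ⟨EuclideanSpace.single i (4 / 5), (int_cap i _).2 (by norm_num)⟩, fun N0 => ?_⟩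
  obtain ⟨N, hN0, hN⟩ : ∃ N : ℕ, N0 ≤ N ∧ 1 ≤ N := ⟨N0 + 1, by omega, by omega⟩
  have hNr : (1 : ℝ) ≤ N := by exact_mod_cast hN
  let e : EuclideanSpace ℝ (Fin d) := EuclideanSpace.single i 1
  let η : ℝ := 2 / (25 * N ^ 2)
  have hη : 0 < η := by positivity
  have hη' : η ≤ 2 / 25 := by
    refine div_le_div_of_nonneg_left (by norm_num) (by norm_num) (by nlinarith)
  let w : EuclideanSpace ℝ (Fin d) → EuclideanSpace ℝ (Fin d) := fun p => (5 / 3 * (1 - η)) • e - p
  have hwi : ∀ p, p i = 3 / 5 → 0 < w p i := by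
    intro p hp
    simp only [w, e, PiLp.sub_apply, PiLp.smul_apply, smul_eq_mul, hp, PiLp.single_eq_same]
    linarith
  have hwn : ∀ p, p i = 3 / 5 → 0 < ‖w p‖ := fun p hp => norm_pos_iff.2 fun h => by
    have := hwi p hp
    simp [h] at this
  have hxe : ∀ x : EuclideanSpace ℝ (Fin d), inner ℝ x e = x i := fun x => by
    simp [e, EuclideanSpace.inner_single_right]
  have hxw : ∀ x p, x i = 3 / 5 → inner ℝ x (w p) = 1 - η - inner ℝ x p := by
    intro x p hx
    simp only [w, inner_sub_right, inner_smul_right, hxe, hx]; ring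
  let r : ℝ → EuclideanSpace ℝ (Fin d) := fun c => (3 / 5 : ℝ) • e +
    (4 / 5 * c) • EuclideanSpace.single j 1 + (4 / 5 * √(1 - c ^ 2)) • EuclideanSpace.single l 1
  have hri : ∀ c, r c i = 3 / 5 := fun c => by simp [r, e, hij, hil]
  have hrj : ∀ c, r c j = 4 / 5 * c := fun c => by simp [r, e, hij.symm, hjl]
  have hrl : ∀ c, r c l = 4 / 5 * √(1 - c ^ 2) := fun c => by simp [r, e, hil.symm, hjl.symm]
  have hrn : ∀ c, c ^ 2 ≤ 1 → ‖r c‖ = 1 := by
    intro c hc
    have : ‖r c‖ ^ 2 = 1 := by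
      rw [EuclideanSpace.norm_sq_eq, ← Finset.sum_subset (Finset.subset_univ {i, j, l})]
      · rw [Finset.sum_insert (by simp [hij, hil]), Finset.sum_pair hjl, hri, hrj, hrl]
        simp only [Real.norm_eq_abs, sq_abs, mul_pow, Real.sq_sqrt (sub_nonneg.2 hc)]
        ring
      · intro k _ hk
        simp only [Finset.mem_insert, Finset.mem_singleton, not_or] at hk
        simp [r, e, hk.1, hk.2.1, hk.2.2]
    nlinarith [norm_nonneg (r c)]
  let U0 : Set (EuclideanSpace ℝ (Fin d)) :=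
    {-e} ∪ {u | ∃ p, ‖p‖ = 1 ∧ p i = 3 / 5 ∧ u = ‖w p‖⁻¹ • w p}
  have hU0n : ∀ u ∈ U0, ‖u‖ = 1 := by
    rintro u (rfl | ⟨p, -, hp, rfl⟩)
    · simp [e]
    · rw [norm_smul, norm_inv, norm_norm, inv_mul_cancel₀ (hwn p hp).ne']
  have hcov : frontier (cap i) ⊆ ⋃ u ∈ U0,
      {x | ∃ ε : ℝ, 0 < ε ∧ ε < 1 ∧ x + ε • u ∈ interior (cap i)} := by
    intro x hx
    have hxK : x ∈ cap i := hK.isClosed.frontier_subset hx
    simp only [mem_iUnion, mem_setOf_eq]
    by_cases h : x i = 3 / 5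
    · by_cases h' : ‖x‖ = 1
      · refine ⟨_, Or.inr ⟨x, h', h, rfl⟩, lit i x _ hxK (fun _ => ?_) fun _ => ?_⟩
        · rw [inner_smul_right, hxw x x h, real_inner_self_eq_norm_sq, h']
          exact mul_neg_of_pos_of_neg (inv_pos.2 (hwn x h)) (by linarith)
        · exact mul_pos (inv_pos.2 (hwn x h)) (hwi x h)
      · refine ⟨_, Or.inr ⟨r 0, hrn 0 (by norm_num), hri 0, rfl⟩,
          lit i x _ hxK (fun h => absurd h h') fun _ => ?_⟩
        exact mul_pos (inv_pos.2 (hwn _ (hri 0))) (hwi _ (hri 0))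
    · refine ⟨_, Or.inl rfl, lit i x _ hxK (fun _ => ?_) fun h' => absurd h' h⟩
      have : 3 / 5 ≤ x i := hxK.2
      rw [inner_neg_right, hxe]; linarith
  obtain ⟨U1, hU1, hfin, hc1⟩ := (hK.of_isClosed_subset isClosed_frontier
    hK.isClosed.frontier_subset).elim_finite_subcover_image (fun u _ => by
      simp only [setOf_exists, setOf_and]
      refine isOpen_iUnion fun ε => IsOpen.inter isOpen_const (IsOpen.inter isOpen_const ?_)
      exact isOpen_interior.preimage (f := fun x => x + ε • u) (by fun_prop)) hcov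
  have hI1 : Ill (cap i) U1 := ⟨fun u hu => hU0n u (hU1 hu), fun x hx => by
    simpa using hc1 hx⟩
  obtain ⟨U, hU⟩ := (hfin.finite_subsets.subset
    (fun V hV => hV.1 : {V | V ⊆ U1 ∧ Ill (cap i) V} ⊆ _)).exists_minimal ⟨U1, subset_rfl, hI1⟩
  refine ⟨U, ⟨hU.1.2, fun V hV hne hI => hne (hV.antisymm (hU.2 ⟨hV.trans hU.1.1, hI⟩ hV))⟩, ?_⟩
  have hc : ∀ k : Fin N, ((k : ℝ) / N) ^ 2 ≤ 1 := fun k => by
    have : (k : ℝ) ≤ N := by exact_mod_cast k.2.le
    exact pow_le_one₀ (by positivity) ((div_le_one (by linarith)).2 this)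
  have hfr : ∀ k : Fin N, r (k / N) ∈ frontier (cap i) := fun k =>
    ⟨subset_closure ⟨mem_closedBall_zero_iff.2 (hrn _ (hc k)).le, (hri _).ge⟩,
      fun h => ((int_cap i _).1 h).1.ne (hrn _ (hc k))⟩
  choose u hu ε hε _ hlit using fun k => hU.1.2.2 _ (hfr k)
  have hun := fun k => unlit i _ _ (hrn _ (hc k)) (hri _) (hε k) (hlit k)
  have hinj : Function.Injective u := by
    intro k k' hk
    rcases hU1 (hU.1.1 (hu k)) with h | ⟨p, hp1, hp2, hp3⟩
    · have := (hun k).2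
      rw [mem_singleton_iff.1 h] at this
      norm_num [e] at this
    · have key : ∀ m : Fin N, u m = ‖w p‖⁻¹ • w p → |4 / 5 * (m / N) - p j| < 2 / (5 * N) := by
        intro m hm
        have h1 := (hun m).1
        rw [hm, inner_smul_right, hxw _ _ (hri _)] at h1
        have h2 := neg_of_mul_neg_right h1 (inv_pos.2 (hwn p hp2)).le
        have h3 := norm_sub_sq_real (r (m / N)) p
        rw [hrn _ (hc m), hp1] at h3
        have h4 : ‖r (m / N) - p‖ < 2 / (5 * N) := by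
          refine lt_of_pow_lt_pow_left₀ 2 (by positivity) ?_
          have : (2 / (5 * N) : ℝ) ^ 2 = 2 * η := by simp only [η]; field_simp; ring
          linarith
        have h5 := PiLp.norm_apply_le (r (m / N) - p) j
        rw [PiLp.sub_apply, hrj, Real.norm_eq_abs] at h5
        linarith
      have a := abs_lt.1 (key k hp3)
      have b := abs_lt.1 (key k' (hk ▸ hp3))
      have e1 : (4 / 5 * (k / N) : ℝ) = 2 * k * (2 / (5 * N)) := by field_simp; ring
      have e2 : (4 / 5 * (k' / N) : ℝ) = 2 * k' * (2 / (5 * N)) := by field_simp; ring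
      have hpos : (0 : ℝ) < 2 / (5 * N) := by positivity
      rw [e1] at a
      rw [e2] at b
      have c1 : (k : ℝ) < k' + 1 := by nlinarith
      have c2 : (k' : ℝ) < k + 1 := by nlinarith
      have c3 : (k : ℕ) < k' + 1 := by exact_mod_cast c1
      have c4 : (k' : ℕ) < k + 1 := by exact_mod_cast c2
      exact Fin.ext (by omega)
  calc (N0 : ℕ∞) ≤ N := by exact_mod_cast hN0
    _ ≤ (range u).encard := by simpa using hinj.encard_range
    _ ≤ U.encard := encard_le_encard (by rintro _ ⟨k, rfl⟩; exact hu k)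

end Pool.Agent.Results.MP_26bcd4_gt.OuterUnbounded
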